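import Pool.Agent.T6.H39.AG.Low
import Pool.Agent.T6.H39.TR.Grow

/-!
# Few elements of a space with the hyperplane property in finitely generated algebras
-/

set_option autoImplicit false

namespace Pool.Agent.T6.H39.AG

open Module Finset
open Pool.Agent.HP778 (Hyper)
open Pool.Agent.T6.H39.TR

variable {k Ω : Type} [Field k] [Field Ω] [Algebra k Ω]

theorem span_basis (Y : Submodule k Ω) [FiniteDimensional k Y] :
    Submodule.span k (Set.range fun i => ((Module.finBasis k Y i : Y) : Ω)) = Y := by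
  have h := congrArg (Submodule.map Y.subtype) (Module.finBasis k Y).span_eq
  rw [Submodule.map_span, Submodule.map_top, Submodule.range_subtype, ← Set.range_comp] at h
  exact h

theorem finrank_mul_le (Y G : Submodule k Ω) [FiniteDimensional k Y] [FiniteDimensional k G] :
    finrank k (Y * G : Submodule k Ω) ≤ finrank k Y * finrank k G := by
  have h1 : Y * G ≤ Submodule.span k (Set.range fun p : Fin (finrank k Y) × Fin (finrank k G) =>
      ((Module.finBasis k Y p.1 : Y) : Ω) * ((Module.finBasis k G p.2 : G) : Ω)) := by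
    conv_lhs => rw [← span_basis Y, ← span_basis G, Submodule.span_mul_span]
    rw [Submodule.span_le]
    rintro _ ⟨_, ⟨i, rfl⟩, _, ⟨j, rfl⟩, rfl⟩
    exact Submodule.subset_span ⟨(i, j), rfl⟩
  have hfd : FiniteDimensional k (Submodule.span k
      (Set.range fun p : Fin (finrank k Y) × Fin (finrank k G) =>
      ((Module.finBasis k Y p.1 : Y) : Ω) * ((Module.finBasis k G p.2 : G) : Ω))) :=
    FiniteDimensional.span_of_finite _ (Set.finite_range _)
  refine (Submodule.finrank_mono h1).trans ((finrank_range_le_card _).trans (le_of_eq ?_))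
  rw [Fintype.card_prod, Fintype.card_fin, Fintype.card_fin]

theorem exists_root {t m : ℕ} (ht : t ≠ 0) (hm : 1 ≤ m) :
    ∃ j : ℕ, 1 ≤ j ∧ m ≤ j ^ (2 * t) ∧ j ^ (2 * t) ≤ 4 ^ t * m := by
  classical
  have hex : ∃ j : ℕ, m ≤ j ^ (2 * t) := ⟨m, Nat.le_self_pow (by omega) m⟩
  obtain ⟨j, hj⟩ : ∃ j, j = Nat.find hex := ⟨_, rfl⟩
  have h1 : m ≤ j ^ (2 * t) := by rw [hj]; exact Nat.find_spec hex
  have h0 : 1 ≤ j := by
    rcases Nat.eq_zero_or_pos j with h | h
    · rw [h, zero_pow (by omega)] at h1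
      omega
    · exact h
  refine ⟨j, h0, h1, ?_⟩
  rcases Nat.lt_or_ge j 2 with h2 | h2
  · have h3 : j = 1 := by omega
    rw [h3, one_pow]
    exact Nat.one_le_iff_ne_zero.2 (by positivity)
  · have h3 : ¬ m ≤ (j - 1) ^ (2 * t) := Nat.find_min hex (by omega)
    push Not at h3
    have h4 : j ≤ 2 * (j - 1) := by omega
    calc j ^ (2 * t) ≤ (2 * (j - 1)) ^ (2 * t) := Nat.pow_le_pow_left h4 _
      _ = 4 ^ t * (j - 1) ^ (2 * t) := by
          rw [mul_pow, pow_mul 2 2 t]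
          norm_num
      _ ≤ 4 ^ t * m := Nat.mul_le_mul_left _ h3.le

theorem numeric {C t m n s : ℕ} {g : ℕ → ℕ} (h1 : ∀ k, (k + 1) ^ t ≤ C * g k)
    (h2 : ∀ k, g k ≤ C * (k + 1) ^ t)
    (h3 : ∀ k, g k * s ≤ m * g (k + n) + g k * (g k - 1)) (h4 : s ≤ m * g n) :
    s ^ 2 ≤ ((C ^ 2 + C ^ 3) ^ 2 * 64 ^ t + C ^ 2) * (m ^ 2 + m * (n + 1) ^ t) := by
  rcases Nat.eq_zero_or_pos m with hm | hm
  · rw [hm, zero_mul] at h4
    have : s = 0 := by omega
    rw [this]
    simp
  rcases Nat.eq_zero_or_pos t with ht | ht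
  · have h5 : s ≤ m * C := by
      have := h2 n
      rw [ht, pow_zero, mul_one] at this
      exact h4.trans (Nat.mul_le_mul_left _ this)
    calc s ^ 2 ≤ (m * C) ^ 2 := Nat.pow_le_pow_left h5 2
      _ = C ^ 2 * m ^ 2 := by ring
      _ ≤ _ := Nat.mul_le_mul (Nat.le_add_left _ _) (Nat.le_add_right _ _)
  obtain ⟨j, hj1, hj2, hj3⟩ := exists_root (by omega : t ≠ 0) hm
  obtain ⟨q, hq⟩ : ∃ q, q = Nat.sqrt n + 1 := ⟨_, rfl⟩
  have hq1 : n + 1 ≤ q * q := by
    rw [hq]
    exact Nat.lt_succ_sqrt n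
  have hq2 : q * q ≤ 4 * (n + 1) := by
    have := Nat.sqrt_le n
    have h6 : Nat.sqrt n ≤ n := Nat.sqrt_le_self n
    rw [hq]
    nlinarith
  have hq0 : 1 ≤ q := by omega
  obtain ⟨K, hK⟩ : ∃ K, K + 1 = j * q := ⟨j * q - 1, Nat.sub_add_cancel (Nat.mul_pos hj1 hq0)⟩
  have e1 : (j * q) ^ t * s ≤ C * (C * m * (q * (q + j)) ^ t + C ^ 2 * ((j * q) ^ t * (j * q) ^ t)) := by
    have e2 := h1 K
    rw [hK] at e2
    have e3 := h2 K
    rw [hK] at e3
    have e4 := h2 (K + n)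
    have e5 : K + n + 1 ≤ q * (q + j) := by nlinarith
    have e6 : g (K + n) ≤ C * (q * (q + j)) ^ t :=
      e4.trans (Nat.mul_le_mul_left _ (Nat.pow_le_pow_left e5 t))
    calc (j * q) ^ t * s ≤ C * g K * s := Nat.mul_le_mul_right _ e2
      _ = C * (g K * s) := by ring
      _ ≤ C * (m * g (K + n) + g K * (g K - 1)) := Nat.mul_le_mul_left _ (h3 K)
      _ ≤ C * (m * (C * (q * (q + j)) ^ t) + (C * (j * q) ^ t) * (C * (j * q) ^ t)) := by
          apply Nat.mul_le_mul_left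
          apply Nat.add_le_add (Nat.mul_le_mul_left _ e6)
          exact Nat.mul_le_mul e3 ((Nat.sub_le _ _).trans e3)
      _ = _ := by ring
  have e7 : s ≤ (C ^ 2 + C ^ 3) * (j ^ t * (q + j) ^ t) := by
    have hpos : 0 < (j * q) ^ t := by positivity
    apply Nat.le_of_mul_le_mul_left _ hpos
    refine e1.trans ?_
    have e8 : m ≤ j ^ t * j ^ t := by
      rw [← pow_add]
      convert hj2 using 2
      omega
    have e9 : q ^ t ≤ (q + j) ^ t := Nat.pow_le_pow_left (by omega) t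
    calc C * (C * m * (q * (q + j)) ^ t + C ^ 2 * ((j * q) ^ t * (j * q) ^ t))
        ≤ C * (C * (j ^ t * j ^ t) * (q * (q + j)) ^ t +
            C ^ 2 * ((j * q) ^ t * (j ^ t * (q + j) ^ t))) := by
          apply Nat.mul_le_mul_left
          apply Nat.add_le_add
          · exact Nat.mul_le_mul_right _ (Nat.mul_le_mul_left _ e8)
          · apply Nat.mul_le_mul_left
            apply Nat.mul_le_mul_left
            rw [mul_pow]
            exact Nat.mul_le_mul_left _ e9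
      _ = (j * q) ^ t * ((C ^ 2 + C ^ 3) * (j ^ t * (q + j) ^ t)) := by
          rw [mul_pow, mul_pow]
          ring
  have e10 : (q + j) ^ (2 * t) ≤ 4 ^ t * (q ^ (2 * t) + j ^ (2 * t)) := by
    have e11 : ∀ a b : ℕ, a ≤ b → (a + b) ^ (2 * t) ≤ 4 ^ t * b ^ (2 * t) := by
      intro a b hab
      calc (a + b) ^ (2 * t) ≤ (2 * b) ^ (2 * t) := Nat.pow_le_pow_left (by omega) _
        _ = 4 ^ t * b ^ (2 * t) := by
            rw [mul_pow, pow_mul 2 2 t]
            norm_num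
    rcases le_total q j with h | h
    · exact (e11 q j h).trans (Nat.mul_le_mul_left _ (Nat.le_add_left _ _))
    · rw [add_comm]
      exact (e11 j q h).trans (Nat.mul_le_mul_left _ (Nat.le_add_right _ _))
  have e12 : q ^ (2 * t) ≤ 4 ^ t * (n + 1) ^ t := by
    rw [pow_mul, ← mul_pow]
    apply Nat.pow_le_pow_left
    rw [sq]
    exact hq2
  calc s ^ 2 ≤ ((C ^ 2 + C ^ 3) * (j ^ t * (q + j) ^ t)) ^ 2 := Nat.pow_le_pow_left e7 2
    _ = (C ^ 2 + C ^ 3) ^ 2 * (j ^ (2 * t) * (q + j) ^ (2 * t)) := by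
        rw [mul_pow, mul_pow, ← pow_mul, ← pow_mul, mul_comm t 2]
    _ ≤ (C ^ 2 + C ^ 3) ^ 2 * ((4 ^ t * m) * (4 ^ t * (4 ^ t * (n + 1) ^ t + 4 ^ t * m))) := by
        apply Nat.mul_le_mul_left
        apply Nat.mul_le_mul hj3
        exact e10.trans (Nat.mul_le_mul_left _ (Nat.add_le_add e12 hj3))
    _ = (C ^ 2 + C ^ 3) ^ 2 * 64 ^ t * (m ^ 2 + m * (n + 1) ^ t) := by
        have : (64 : ℕ) ^ t = 4 ^ t * (4 ^ t * 4 ^ t) := by
          rw [← mul_pow, ← mul_pow]
          norm_num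
        rw [this]
        ring
    _ ≤ _ := Nat.mul_le_mul_right _ (Nat.le_add_right _ _)

/-- the general theorem -/
theorem main {V : Submodule k Ω} (hV : Hyper V) {r : ℕ} (z : Fin r → Ω) : ∃ t C : ℕ,
    Algebra.trdeg k (Algebra.adjoin k (Set.range z)) = t ∧
    (∀ n : ℕ, (n + 1) ^ t ≤ C * finrank k (gen k z ^ n : Submodule k Ω) ∧
      finrank k (gen k z ^ n : Submodule k Ω) ≤ C * (n + 1) ^ t) ∧
    ∀ (Y : Submodule k Ω), FiniteDimensional k Y → ∀ n : ℕ,
      finrank k (Y * gen k z ^ n ⊓ V : Submodule k Ω) ^ 2 ≤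
        C * (finrank k Y ^ 2 + finrank k Y * (n + 1) ^ t) := by
  obtain ⟨t, C, h1, h2⟩ := growth (k := k) z
  refine ⟨t, C + ((C ^ 2 + C ^ 3) ^ 2 * 64 ^ t + C ^ 2), h1, fun n => ⟨?_, ?_⟩, fun Y hY n => ?_⟩
  · exact (h2 n).1.trans (Nat.mul_le_mul_right _ (Nat.le_add_right _ _))
  · exact (h2 n).2.trans (Nat.mul_le_mul_right _ (Nat.le_add_right _ _))
  · have hfd : FiniteDimensional k (Y * gen k z ^ n : Submodule k Ω) := fd_mul _ _
    refine (numeric (g := fun n => finrank k (gen k z ^ n : Submodule k Ω))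
      (fun k => (h2 k).1) (fun k => (h2 k).2) (fun j => ?_) ?_).trans
        (Nat.mul_le_mul_right _ (Nat.le_add_left _ _))
    · have h3 := grow hV (gen k z ^ j) (Y * gen k z ^ n)
      have h4 : gen k z ^ j * (Y * gen k z ^ n) = Y * gen k z ^ (j + n) := by
        rw [pow_add, mul_left_comm]
      rw [h4] at h3
      exact h3.trans (Nat.add_le_add_right (finrank_mul_le _ _) _)
    · exact (Submodule.finrank_mono inf_le_left).trans (finrank_mul_le _ _)

end Pool.Agent.T6.H39.AG
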