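import Pool.Agent.T6.H39.AG.Main

/-!
# Few elements of a space with the hyperplane property in finitely generated fields
-/

set_option autoImplicit false

namespace Pool.Agent.T6.H39.AG

open Module Finset
open Pool.Agent.HP778 (Hyper)
open Pool.Agent.T6.H39.TR

variable {k Ω : Type} [Field k] [Field Ω] [Algebra k Ω]

/-- `f A` -/
noncomputable def mulBy (f : Ω) (A : Submodule k Ω) : Submodule k Ω :=
  Submodule.map (LinearMap.mulLeft k f) A

theorem mem_mulBy {f x : Ω} {A : Submodule k Ω} (hx : x ∈ A) : f * x ∈ mulBy f A :=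
  ⟨x, hx, rfl⟩

theorem finrank_mulBy {f : Ω} (hf : f ≠ 0) (A : Submodule k Ω) :
    finrank k (mulBy f A) = finrank k A := by
  refine (LinearEquiv.finrank_eq (Submodule.equivMapOfInjective (LinearMap.mulLeft k f) ?_ A)).symm
  intro a b hab
  exact mul_left_cancel₀ hf hab

instance {f : Ω} {A : Submodule k Ω} [FiniteDimensional k A] : FiniteDimensional k (mulBy f A) := by
  unfold mulBy
  infer_instance

theorem step {s : ℕ} (f : Fin s → Ω) (hf : ∀ i, f i ≠ 0) (A B : Submodule k Ω)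
    [FiniteDimensional k A] [FiniteDimensional k B] {e : ℕ}
    (h : ∀ i, ∃ (g : Ω) (D : Submodule k Ω), FiniteDimensional k D ∧ g ≠ 0 ∧ e ≤ finrank k D ∧
      mulBy g D ≤ B ∧ mulBy g D ≤ mulBy (f i) A) (T : Finset (Fin s)) :
    FiniteDimensional k (B ⊔ T.sup (fun i => mulBy (f i) A) : Submodule k Ω) ∧
    finrank k (B ⊔ T.sup (fun i => mulBy (f i) A) : Submodule k Ω) + T.card * e ≤
      finrank k B + T.card * finrank k A := by
  classical
  induction T using Finset.induction_on with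
  | empty =>
    rw [Finset.sup_empty, sup_bot_eq]
    exact ⟨inferInstance, by simp⟩
  | insert i T hi ih =>
    obtain ⟨ih1, ih2⟩ := ih
    rw [Finset.sup_insert, Finset.card_insert_of_notMem hi]
    obtain ⟨X, hX⟩ : ∃ X, X = B ⊔ T.sup (fun i => mulBy (f i) A) := ⟨_, rfl⟩
    have e1 : B ⊔ (mulBy (f i) A ⊔ T.sup (fun i => mulBy (f i) A)) = X ⊔ mulBy (f i) A := by
      rw [hX, sup_comm (mulBy (f i) A), sup_assoc]
    rw [← hX] at ih1 ih2
    rw [e1]
    have := ih1
    refine ⟨inferInstance, ?_⟩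
    have h1 := Submodule.finrank_sup_add_finrank_inf_eq X (mulBy (f i) A)
    rw [finrank_mulBy (hf i)] at h1
    obtain ⟨g, D, hD, hg, h2, h3, h4⟩ := h i
    have h5 : mulBy g D ≤ X ⊓ mulBy (f i) A := by
      refine le_inf (h3.trans ?_) h4
      rw [hX]
      exact le_sup_left
    have h6 := Submodule.finrank_mono h5
    rw [finrank_mulBy hg] at h6
    rw [Nat.succ_mul, Nat.succ_mul]
    omega

/-- linearly independent families -/
theorem indep_bound {V : Submodule k Ω} (hV : Hyper V) {r : ℕ} (z : Fin r → Ω)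
    (Y : Submodule k Ω) [FiniteDimensional k Y] (n b : ℕ) {s : ℕ} (f : Fin s → Ω)
    (hf : LinearIndependent k f) (hfV : ∀ i, f i ∈ V)
    (hq : ∀ i, ∃ q ∈ gen k z ^ n, q ≠ 0 ∧ q * f i ∈ Y * gen k z ^ n) :
    s * finrank k (gen k z ^ b : Submodule k Ω) ≤
      finrank k (gen k z ^ (n + b) : Submodule k Ω) *
        (finrank k Y + finrank k (gen k z ^ (n + b) : Submodule k Ω)) := by
  have hf0 : ∀ i, f i ≠ 0 := fun i => hf.ne_zero i
  have hBfd : FiniteDimensional k (Y * gen k z ^ (n + b) : Submodule k Ω) := fd_mul _ _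
  have h1 := step f hf0 (gen k z ^ (n + b)) (Y * gen k z ^ (n + b))
    (e := finrank k (gen k z ^ b : Submodule k Ω)) (fun i => by
      obtain ⟨q, hq1, hq2, hq3⟩ := hq i
      refine ⟨q * f i, gen k z ^ b, inferInstance, mul_ne_zero hq2 (hf0 i), le_rfl, ?_, ?_⟩
      · rintro _ ⟨x, hx, rfl⟩
        change q * f i * x ∈ _
        have h2 := Submodule.mul_mem_mul hq3 hx
        rwa [mul_assoc Y, ← pow_add] at h2
      · rintro _ ⟨x, hx, rfl⟩
        change q * f i * x ∈ _
        have h2 := Submodule.mul_mem_mul hq1 hx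
        rw [← pow_add] at h2
        have h3 := mem_mulBy (f := f i) h2
        convert h3 using 1
        ring) Finset.univ
  rw [Finset.card_univ, Fintype.card_fin] at h1
  obtain ⟨h1, h2⟩ := h1
  have hFfd : FiniteDimensional k (Submodule.span k (Set.range f)) :=
    FiniteDimensional.span_of_finite _ (Set.finite_range _)
  have h3 := grow hV (gen k z ^ (n + b)) (Submodule.span k (Set.range f))
  have h4 : Submodule.span k (Set.range f) ⊓ V = Submodule.span k (Set.range f) := by
    rw [inf_eq_left, Submodule.span_le]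
    rintro _ ⟨i, rfl⟩
    exact hfV i
  have h5 := finrank_span_eq_card hf
  rw [Fintype.card_fin] at h5
  rw [h4, h5] at h3
  have h6 : gen k z ^ (n + b) * Submodule.span k (Set.range f) ≤
      (Y * gen k z ^ (n + b)) ⊔ Finset.univ.sup (fun i => mulBy (f i) (gen k z ^ (n + b))) := by
    rw [Submodule.mul_le]
    intro a ha x hx
    induction hx using Submodule.span_induction with
    | mem x hx =>
      obtain ⟨i, rfl⟩ := hx
      have h7 : a * f i ∈ mulBy (f i) (gen k z ^ (n + b)) := by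
        rw [mul_comm a (f i)]
        exact mem_mulBy ha
      exact (le_sup_of_le_right (Finset.le_sup (f := fun i => mulBy (f i) (gen k z ^ (n + b)))
        (Finset.mem_univ i))) h7
    | zero => rw [mul_zero]; exact Submodule.zero_mem _
    | add x y _ _ hx hy => rw [mul_add]; exact Submodule.add_mem _ hx hy
    | smul c x _ hx => rw [mul_smul_comm]; exact Submodule.smul_mem _ _ hx
  have h7 := Submodule.finrank_mono h6
  have h8 := finrank_mul_le Y (gen k z ^ (n + b))
  generalize finrank k (gen k z ^ (n + b) : Submodule k Ω) = d at h2 h3 h8 ⊢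
  generalize finrank k (gen k z ^ b : Submodule k Ω) = e at h2 ⊢
  have h9 : d * (d - 1) ≤ d * d := Nat.mul_le_mul_left _ (Nat.sub_le _ _)
  have h10 : d * (finrank k Y + d) = finrank k Y * d + d * d := by ring
  have h11 : d * s = s * d := mul_comm _ _
  omega

/-- a step with small growth -/
theorem small_step {C t : ℕ} {h : ℕ → ℕ} (hmono : Monotone h)
    (h1 : ∀ n, (n + 1) ^ t ≤ C * h n) (h2 : ∀ n, h n ≤ C * (n + 1) ^ t) {ε : ℝ} (hε : 0 < ε) :
    ∃ C' : ℝ, 0 ≤ C' ∧ ∀ n : ℕ, ∃ b : ℕ, (h (n + b) : ℝ) ≤ (1 + ε) * h b ∧ 0 < h b ∧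
      (1 + ε) * h (n + b) ≤ C' * ((n : ℝ) + 1) ^ t := by
  have hpos : ∀ n, 0 < h n := by
    intro n
    by_contra hc
    have h3 := h1 n
    have h4 : h n = 0 := by omega
    rw [h4, mul_zero] at h3
    have : 0 < (n + 1) ^ t := by positivity
    omega
  have hr : (1 : ℝ) < 1 + ε := by linarith
  have hlim := tendsto_pow_const_div_const_pow_of_one_lt t hr
  obtain ⟨K, hK⟩ := ((hlim.comp (Filter.tendsto_add_atTop_nat 2)).eventually
    (gt_mem_nhds (show (0 : ℝ) < 1 / ((1 + ε) ^ 2 * ((C : ℝ) ^ 2 + 1)) by positivity))).exists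
  have hK2 : (C : ℝ) ^ 2 * ((K : ℝ) + 2) ^ t < (1 + ε) ^ K := by
    simp only [Function.comp_apply, Nat.cast_add, Nat.cast_ofNat] at hK
    rw [div_lt_div_iff₀ (by positivity) (by positivity), pow_add] at hK
    have h5 : (0 : ℝ) < ((K : ℝ) + 2) ^ t := by positivity
    have h6 : (0 : ℝ) < (1 + ε) ^ 2 := by positivity
    have h7 : ((C : ℝ) ^ 2 + 1) * ((K : ℝ) + 2) ^ t < (1 + ε) ^ K := by
      apply lt_of_mul_lt_mul_right _ h6.le
      linarith
    linarith
  refine ⟨(1 + ε) * (C * ((K : ℝ) + 2) ^ t), by positivity, fun n => ?_⟩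
  obtain ⟨j, hj, hj2⟩ : ∃ j : ℕ, j < K ∧ (h ((j + 2) * (n + 1)) : ℝ) ≤
      (1 + ε) * h ((j + 1) * (n + 1)) := by
    by_contra hcon
    push Not at hcon
    have h8 : ∀ j : ℕ, j ≤ K → (1 + ε) ^ j * (h (1 * (n + 1)) : ℝ) ≤ h ((j + 1) * (n + 1)) := by
      intro j
      induction j with
      | zero => intro _; simp
      | succ j ih =>
        intro hj
        have h9 := ih (by omega)
        have h10 := hcon j (by omega)
        calc (1 + ε) ^ (j + 1) * (h (1 * (n + 1)) : ℝ)
            = (1 + ε) * ((1 + ε) ^ j * (h (1 * (n + 1)) : ℝ)) := by ring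
          _ ≤ (1 + ε) * h ((j + 1) * (n + 1)) := mul_le_mul_of_nonneg_left h9 (by positivity)
          _ ≤ _ := h10.le
    have h9 := h8 K le_rfl
    have h10 : (h ((K + 1) * (n + 1)) : ℝ) ≤ C * (((K : ℝ) + 2) ^ t * ((n : ℝ) + 1) ^ t) := by
      have h11 := h2 ((K + 1) * (n + 1))
      have h12 : (K + 1) * (n + 1) + 1 ≤ (K + 2) * (n + 1) := by nlinarith
      have h13 : h ((K + 1) * (n + 1)) ≤ C * ((K + 2) ^ t * (n + 1) ^ t) := by
        rw [← mul_pow]
        exact h11.trans (Nat.mul_le_mul_left _ (Nat.pow_le_pow_left h12 t))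
      exact_mod_cast h13
    have h14 : ((n : ℝ) + 1) ^ t ≤ C * h (1 * (n + 1)) := by
      have h15 := h1 (1 * (n + 1))
      have h16 : (n + 1) ^ t ≤ C * h (1 * (n + 1)) :=
        (Nat.pow_le_pow_left (by omega) t).trans h15
      exact_mod_cast h16
    have h17 : (0 : ℝ) < h (1 * (n + 1)) := by exact_mod_cast hpos _
    have h18 : (1 + ε) ^ K * (h (1 * (n + 1)) : ℝ) ≤
        (C : ℝ) ^ 2 * ((K : ℝ) + 2) ^ t * h (1 * (n + 1)) := by
      calc (1 + ε) ^ K * (h (1 * (n + 1)) : ℝ) ≤ C * (((K : ℝ) + 2) ^ t * ((n : ℝ) + 1) ^ t) :=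
            h9.trans h10
        _ ≤ C * (((K : ℝ) + 2) ^ t * (C * h (1 * (n + 1)))) := by gcongr
        _ = _ := by ring
    have h19 := lt_of_mul_lt_mul_right (lt_of_le_of_lt h18
      (mul_lt_mul_of_pos_right hK2 h17)) h17.le
    exact lt_irrefl _ h19
  refine ⟨(j + 1) * (n + 1), ?_, hpos _, ?_⟩
  · refine le_trans ?_ hj2
    have h20 : n + (j + 1) * (n + 1) ≤ (j + 2) * (n + 1) := by nlinarith
    exact_mod_cast hmono h20
  · rw [mul_assoc]
    apply mul_le_mul_of_nonneg_left _ (by positivity)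
    have h21 := h2 (n + (j + 1) * (n + 1))
    have h22 : n + (j + 1) * (n + 1) + 1 ≤ (K + 2) * (n + 1) := by
      have : j + 1 ≤ K := hj
      nlinarith
    have h23 : h (n + (j + 1) * (n + 1)) ≤ C * ((K + 2) ^ t * (n + 1) ^ t) := by
      rw [← mul_pow]
      exact h21.trans (Nat.mul_le_mul_left _ (Nat.pow_le_pow_left h22 t))
    have h24 : (h (n + (j + 1) * (n + 1)) : ℝ) ≤ C * (((K : ℝ) + 2) ^ t * ((n : ℝ) + 1) ^ t) := by
      exact_mod_cast h23
    linarith

/-- the elements of `V` of degree at most `n` -/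
noncomputable def low {r : ℕ} (V : Submodule k Ω) (z : Fin r → Ω) (Y : Submodule k Ω) (n : ℕ) :
    Submodule k Ω :=
  Submodule.span k {f | f ∈ V ∧ ∃ q ∈ gen k z ^ n, q ≠ 0 ∧ q * f ∈ Y * gen k z ^ n}

theorem span_bound {S : Set Ω} {B : ℕ}
    (h : ∀ (s : ℕ) (f : Fin s → Ω), LinearIndependent k f → (∀ i, f i ∈ S) → s ≤ B) :
    FiniteDimensional k (Submodule.span k S) ∧ finrank k (Submodule.span k S) ≤ B := by
  obtain ⟨b, hb1, hb2, hb3⟩ := exists_linearIndependent k S
  have hcard : ∀ T : Finset Ω, (T : Set Ω) ⊆ b → T.card ≤ B := by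
    intro T hT
    refine h T.card (fun i => (T.equivFin.symm i : Ω)) ?_ (fun i => hb1 (hT (T.equivFin.symm i).2))
    exact hb3.comp (fun i : Fin T.card => (⟨(T.equivFin.symm i : Ω), hT (T.equivFin.symm i).2⟩ : b))
      (fun i j hij => T.equivFin.symm.injective
        (Subtype.ext (congrArg (fun x : b => (x : Ω)) hij)))
  have hfin : b.Finite := by
    by_contra hinf
    obtain ⟨T, hT1, hT2⟩ := Set.Infinite.exists_subset_card_eq hinf (B + 1)
    have := hcard T hT1
    omega
  rw [← hb2]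
  refine ⟨FiniteDimensional.span_of_finite _ hfin, ?_⟩
  have h1 := hcard hfin.toFinset (by simp)
  have := hfin.fintype
  have h2 : finrank k (Submodule.span k b) = b.toFinset.card := finrank_span_set_eq_card hb3
  rw [h2]
  rwa [Set.Finite.toFinset_eq_toFinset] at h1

/-- **the general theorem** -/
theorem frac {V : Submodule k Ω} (hV : Hyper V) {r : ℕ} (z : Fin r → Ω) : ∃ t : ℕ,
    Algebra.trdeg k (Algebra.adjoin k (Set.range z)) = t ∧
    ∀ ε : ℝ, 0 < ε → ∃ C : ℝ, 0 ≤ C ∧ ∀ (Y : Submodule k Ω), FiniteDimensional k Y → ∀ n : ℕ,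
      FiniteDimensional k (low V z Y n) ∧
      (finrank k (low V z Y n) : ℝ) ≤ (1 + ε) * finrank k Y + C * ((n : ℝ) + 1) ^ t := by
  obtain ⟨t, C, h1, h2⟩ := growth (k := k) z
  refine ⟨t, h1, fun ε hε => ?_⟩
  obtain ⟨C', hC', h3⟩ := small_step (h := fun n => finrank k (gen k z ^ n : Submodule k Ω))
    (fun a b hab => Submodule.finrank_mono (pow_mono z hab)) (fun n => (h2 n).1)
    (fun n => (h2 n).2) hε
  refine ⟨C', hC', fun Y hY n => ?_⟩
  obtain ⟨b, h4, h5, h6⟩ := h3 n
  have key : ∀ (s : ℕ) (f : Fin s → Ω), LinearIndependent k f →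
      (∀ i, f i ∈ {f | f ∈ V ∧ ∃ q ∈ gen k z ^ n, q ≠ 0 ∧ q * f ∈ Y * gen k z ^ n}) →
      s ≤ ⌊(1 + ε) * finrank k Y + C' * ((n : ℝ) + 1) ^ t⌋₊ := by
    intro s f hf hfS
    apply Nat.le_floor
    have h7 := indep_bound hV z Y n b f hf (fun i => (hfS i).1) (fun i => (hfS i).2)
    have h8 : (s : ℝ) * finrank k (gen k z ^ b : Submodule k Ω) ≤
        finrank k (gen k z ^ (n + b) : Submodule k Ω) *
          (finrank k Y + finrank k (gen k z ^ (n + b) : Submodule k Ω)) := by
      exact_mod_cast h7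
    have h9 : (0 : ℝ) < finrank k (gen k z ^ b : Submodule k Ω) := by exact_mod_cast h5
    have h10 : (s : ℝ) * finrank k (gen k z ^ b : Submodule k Ω) ≤
        ((1 + ε) * (finrank k Y + finrank k (gen k z ^ (n + b) : Submodule k Ω))) *
          finrank k (gen k z ^ b : Submodule k Ω) := by
      refine h8.trans ?_
      calc (finrank k (gen k z ^ (n + b) : Submodule k Ω) : ℝ) *
            (finrank k Y + finrank k (gen k z ^ (n + b) : Submodule k Ω))
          ≤ ((1 + ε) * finrank k (gen k z ^ b : Submodule k Ω)) *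
            (finrank k Y + finrank k (gen k z ^ (n + b) : Submodule k Ω)) :=
            mul_le_mul_of_nonneg_right h4 (by positivity)
        _ = _ := by ring
    have h11 := le_of_mul_le_mul_right h10 h9
    linarith
  obtain ⟨h7, h8⟩ := span_bound key
  refine ⟨h7, ?_⟩
  refine le_trans (by exact_mod_cast h8) (Nat.floor_le (by positivity))

end Pool.Agent.T6.H39.AG
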