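import Pool.Agent.T6.H39.AG.Up

/-!
# Growth of finitely generated algebras (lower bound, Noether normalization)
-/

set_option autoImplicit false

namespace Pool.Agent.T6.H39.AG

open Module Finset

variable {k Ω : Type} [Field k] [Field Ω] [Algebra k Ω]

theorem mem_pow_of_adjoin {r : ℕ} (z : Fin r → Ω) {x : Ω}
    (hx : x ∈ Algebra.adjoin k (Set.range z)) : ∃ d : ℕ, x ∈ gen k z ^ d := by
  induction hx using Algebra.adjoin_induction with
  | mem x hx =>
    obtain ⟨i, rfl⟩ := hx
    exact ⟨1, by rw [pow_one]; exact mem_gen z i⟩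
  | algebraMap c =>
    refine ⟨0, ?_⟩
    rw [Algebra.algebraMap_eq_smul_one]
    exact Submodule.smul_mem _ _ (one_mem_pow z 0)
  | add x y _ _ hx hy =>
    obtain ⟨a, ha⟩ := hx
    obtain ⟨b, hb⟩ := hy
    exact ⟨a + b, Submodule.add_mem _ (pow_mono z (Nat.le_add_right a b) ha)
      (pow_mono z (Nat.le_add_left b a) hb)⟩
  | mul x y _ _ hx hy =>
    obtain ⟨a, ha⟩ := hx
    obtain ⟨b, hb⟩ := hy
    refine ⟨a + b, ?_⟩
    rw [pow_add]
    exact Submodule.mul_mem_mul ha hb

theorem prod_mem {r t : ℕ} (z : Fin r → Ω) (y : Fin t → Ω) {d : ℕ}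
    (hy : ∀ i, y i ∈ gen k z ^ d) (e : Fin t → ℕ) (s : Finset (Fin t)) :
    ∏ i ∈ s, y i ^ e i ∈ gen k z ^ (∑ i ∈ s, d * e i) := by
  classical
  induction s using Finset.induction_on with
  | empty =>
    rw [Finset.prod_empty, Finset.sum_empty]
    exact one_mem_pow z 0
  | insert a s ha ih =>
    rw [Finset.prod_insert ha, Finset.sum_insert ha, pow_add]
    refine Submodule.mul_mem_mul ?_ ih
    have h1 := Submodule.pow_mem_pow (gen k z ^ d) (hy a) (e a)
    rwa [← pow_mul] at h1

/-- the lower bound -/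
theorem lower {r t : ℕ} (z : Fin r → Ω) (y : Fin t → Ω) (hy : AlgebraicIndependent k y)
    (hz : ∀ i, y i ∈ Algebra.adjoin k (Set.range z)) :
    ∃ C : ℕ, ∀ n : ℕ, (n + 1) ^ t ≤ C * finrank k (gen k z ^ n : Submodule k Ω) := by
  choose D hD using fun i => mem_pow_of_adjoin z (hz i)
  obtain ⟨d, hd⟩ : ∃ d : ℕ, ∀ i, D i ≤ d :=
    ⟨Finset.univ.sup D, fun i => Finset.le_sup (Finset.mem_univ i)⟩
  have hyd : ∀ i, y i ∈ gen k z ^ d := fun i => pow_mono z (hd i) (hD i)
  have key : ∀ N : ℕ, (N + 1) ^ t ≤ finrank k (gen k z ^ (t * (d * N)) : Submodule k Ω) := by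
    intro N
    have h1 : LinearIndependent k (fun e : Fin t →₀ ℕ => ∏ i, y i ^ e i) := by
      have h3 := (MvPolynomial.basisMonomials (Fin t) k).linearIndependent.map'
        (MvPolynomial.aeval y : MvPolynomial (Fin t) k →ₐ[k] Ω).toLinearMap
        (LinearMap.ker_eq_bot.mpr hy)
      refine (linearIndependent_equiv' (Equiv.refl _) ?_).mp h3
      funext e
      simp [MvPolynomial.coe_basisMonomials, MvPolynomial.aeval_monomial, Finsupp.prod_fintype]
    let q : (Fin t → Fin (N + 1)) → (Fin t →₀ ℕ) := fun e =>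
      Finsupp.equivFunOnFinite.symm fun i => (e i : ℕ)
    have hq : Function.Injective q := by
      intro e e' h
      funext i
      have h2 := DFunLike.congr_fun h i
      exact Fin.ext h2
    have h2 := h1.comp q hq
    have h3 := finrank_span_eq_card h2
    rw [Fintype.card_fun, Fintype.card_fin, Fintype.card_fin] at h3
    rw [← h3]
    apply Submodule.finrank_mono
    rw [Submodule.span_le]
    rintro _ ⟨e, rfl⟩
    change ∏ i, y i ^ (q e i) ∈ _
    refine pow_mono z ?_ (prod_mem z y hyd (fun i => q e i) Finset.univ)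
    calc ∑ i, d * q e i ≤ ∑ _i : Fin t, d * N :=
          Finset.sum_le_sum fun i _ => Nat.mul_le_mul_left d (Nat.le_of_lt_succ (e i).2)
      _ = t * (d * N) := by
          rw [Finset.sum_const, Finset.card_univ, Fintype.card_fin, smul_eq_mul]
  refine ⟨(t * d + 1) ^ t, fun n => ?_⟩
  have h1 := key (n / (t * d + 1))
  have h2 : t * (d * (n / (t * d + 1))) ≤ n := by
    calc t * (d * (n / (t * d + 1))) = (t * d) * (n / (t * d + 1)) := by ring
      _ ≤ (t * d + 1) * (n / (t * d + 1)) := Nat.mul_le_mul_right _ (Nat.le_succ _)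
      _ ≤ n := Nat.mul_div_le n _
  have h3 : n + 1 ≤ (t * d + 1) * (n / (t * d + 1) + 1) :=
    Nat.succ_le_of_lt (Nat.lt_mul_div_succ n (Nat.succ_pos _))
  calc (n + 1) ^ t ≤ ((t * d + 1) * (n / (t * d + 1) + 1)) ^ t := Nat.pow_le_pow_left h3 t
    _ = (t * d + 1) ^ t * (n / (t * d + 1) + 1) ^ t := mul_pow _ _ _
    _ ≤ (t * d + 1) ^ t * finrank k (gen k z ^ n : Submodule k Ω) :=
        Nat.mul_le_mul_left _ (h1.trans (Submodule.finrank_mono (pow_mono z h2)))

/-- Noether normalization -/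
theorem noether {r : ℕ} (z : Fin r → Ω) : ∃ (t J : ℕ) (y : Fin t → Ω) (b : Fin J → Ω),
    Algebra.trdeg k (Algebra.adjoin k (Set.range z)) = t ∧ AlgebraicIndependent k y ∧
    (∀ i, y i ∈ Algebra.adjoin k (Set.range z)) ∧
    (∀ l, b l ∈ Algebra.adjoin k (Set.range z)) ∧
    ∀ x ∈ Algebra.adjoin k (Set.range z), ∃ p : Fin J → MvPolynomial (Fin t) k,
      x = ∑ l, MvPolynomial.aeval y (p l) * b l := by
  have hft : Algebra.FiniteType k (Algebra.adjoin k (Set.range z)) :=
    (Subalgebra.fg_iff_finiteType _).mp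
      ((Subalgebra.fg_def).mpr ⟨Set.range z, Set.finite_range z, rfl⟩)
  obtain ⟨t, g, hg, hfin⟩ := exists_finite_inj_algHom_of_fg k (Algebra.adjoin k (Set.range z))
  let _ : Algebra (MvPolynomial (Fin t) k) (Algebra.adjoin k (Set.range z)) := g.toRingHom.toAlgebra
  have _ : Module.Finite (MvPolynomial (Fin t) k) (Algebra.adjoin k (Set.range z)) := hfin
  have _ : IsScalarTower k (MvPolynomial (Fin t) k) (Algebra.adjoin k (Set.range z)) :=
    IsScalarTower.of_algebraMap_eq' (by
      ext c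
      exact congrArg Subtype.val (g.commutes c).symm)
  have _ : FaithfulSMul (MvPolynomial (Fin t) k) (Algebra.adjoin k (Set.range z)) :=
    (faithfulSMul_iff_algebraMap_injective _ _).mpr hg
  obtain ⟨J, b, hb⟩ := Module.Finite.exists_fin (R := MvPolynomial (Fin t) k)
    (M := Algebra.adjoin k (Set.range z))
  have hval : ∀ p : MvPolynomial (Fin t) k, ((g p : Algebra.adjoin k (Set.range z)) : Ω) =
      MvPolynomial.aeval (fun i => ((g (MvPolynomial.X i) : Algebra.adjoin k (Set.range z)) : Ω)) p := by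
    intro p
    have h1 : ((Algebra.adjoin k (Set.range z)).val.comp g) =
        MvPolynomial.aeval (fun i => ((g (MvPolynomial.X i) : Algebra.adjoin k (Set.range z)) : Ω)) := by
      apply MvPolynomial.algHom_ext
      intro i
      simp
    exact DFunLike.congr_fun h1 p
  refine ⟨t, J, fun i => (g (MvPolynomial.X i) : Algebra.adjoin k (Set.range z)),
    fun l => (b l : Algebra.adjoin k (Set.range z)), ?_, ?_, fun i => Subtype.property _,
    fun l => Subtype.property _, ?_⟩
  · have h1 := trdeg_add_eq k (MvPolynomial (Fin t) k) (A := Algebra.adjoin k (Set.range z))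
    have _ : Algebra.IsIntegral (MvPolynomial (Fin t) k) (Algebra.adjoin k (Set.range z)) :=
      inferInstance
    rw [← h1, MvPolynomial.trdeg_of_isDomain, trdeg_eq_zero]
    simp
  · unfold AlgebraicIndependent
    intro p q hpq
    apply hg
    apply Subtype.ext
    rw [hval, hval]
    exact hpq
  · intro x hx
    have h2 : (⟨x, hx⟩ : Algebra.adjoin k (Set.range z)) ∈
        Submodule.span (MvPolynomial (Fin t) k) (Set.range b) := by
      rw [hb]
      trivial
    obtain ⟨p, hp⟩ := (Submodule.mem_span_range_iff_exists_fun _).mp h2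
    refine ⟨p, ?_⟩
    have h3 := congrArg Subtype.val hp
    change _ = x at h3
    rw [← h3, AddSubmonoidClass.coe_finsetSum]
    refine Finset.sum_congr rfl fun l _ => ?_
    rw [← hval, Algebra.smul_def]
    rfl

/-- both bounds -/
theorem growth {r : ℕ} (z : Fin r → Ω) : ∃ t C : ℕ,
    Algebra.trdeg k (Algebra.adjoin k (Set.range z)) = t ∧
    ∀ n : ℕ, (n + 1) ^ t ≤ C * finrank k (gen k z ^ n : Submodule k Ω) ∧
      finrank k (gen k z ^ n : Submodule k Ω) ≤ C * (n + 1) ^ t := by
  obtain ⟨t, J, y, b, h1, h2, h3, h4, h5⟩ := noether (k := k) z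
  obtain ⟨C, hC⟩ := lower z y h2 h3
  obtain ⟨C', hC'⟩ := upper z y b (h5 1 (Subalgebra.one_mem _)) (fun i l =>
    h5 _ (Subalgebra.mul_mem _ (Algebra.subset_adjoin ⟨i, rfl⟩) (h4 l)))
  refine ⟨t, C + C', h1, fun n => ⟨(hC n).trans (Nat.mul_le_mul_right _ (Nat.le_add_right _ _)),
    (hC' n).trans (Nat.mul_le_mul_right _ (Nat.le_add_left _ _))⟩⟩

end Pool.Agent.T6.H39.AG
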