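import Mathlib

/-!
# Growth of finitely generated algebras: upper and lower bounds of the same order
-/

set_option autoImplicit false

namespace Pool.Agent.T6.H39.AG

open Module Finset

variable {k Ω : Type} [Field k] [Field Ω] [Algebra k Ω]

/-- the span of `1, z_1, …, z_r` -/
noncomputable def gen (k : Type) {Ω : Type} [Field k] [Field Ω] [Algebra k Ω] {r : ℕ}
    (z : Fin r → Ω) : Submodule k Ω :=
  Submodule.span k (insert 1 (Set.range z))

instance gen_fd {r : ℕ} (z : Fin r → Ω) : FiniteDimensional k (gen k z) :=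
  FiniteDimensional.span_of_finite _ ((Set.finite_range z).insert 1)

instance pow_fd {r : ℕ} (z : Fin r → Ω) (n : ℕ) :
    FiniteDimensional k (gen k z ^ n : Submodule k Ω) := by
  have h1 : (gen k z).FG := Module.Finite.iff_fg.mp inferInstance
  exact Module.Finite.iff_fg.mpr (h1.pow n)

theorem one_mem_gen {r : ℕ} (z : Fin r → Ω) : (1 : Ω) ∈ gen k z :=
  Submodule.subset_span (Set.mem_insert _ _)

theorem mem_gen {r : ℕ} (z : Fin r → Ω) (i : Fin r) : z i ∈ gen k z :=
  Submodule.subset_span (Set.mem_insert_of_mem _ ⟨i, rfl⟩)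

theorem one_mem_pow {r : ℕ} (z : Fin r → Ω) (n : ℕ) : (1 : Ω) ∈ gen k z ^ n := by
  have h := Submodule.pow_mem_pow (gen k z) (one_mem_gen z) n
  rwa [one_pow] at h

theorem pow_mono {r : ℕ} (z : Fin r → Ω) {a b : ℕ} (h : a ≤ b) : gen k z ^ a ≤ gen k z ^ b := by
  intro x hx
  have h1 := Submodule.mul_mem_mul hx (one_mem_pow z (b - a))
  rwa [mul_one, ← pow_add, Nat.add_sub_cancel' h] at h1

/-- `span {Y ^ e b_l : e_i ≤ N}` -/
noncomputable def W {t J : ℕ} (y : Fin t → Ω) (b : Fin J → Ω) (N : ℕ) : Submodule k Ω :=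
  Submodule.span k (Set.range fun q : (Fin t → Fin (N + 1)) × Fin J =>
    (∏ i, y i ^ (q.1 i : ℕ)) * b q.2)

theorem W_mem {t J : ℕ} (y : Fin t → Ω) (b : Fin J → Ω) {N : ℕ} (e : Fin t → ℕ)
    (he : ∀ i, e i ≤ N) (l : Fin J) : (∏ i, y i ^ e i) * b l ∈ W (k := k) y b N :=
  Submodule.subset_span ⟨(fun i => ⟨e i, Nat.lt_succ_of_le (he i)⟩, l), rfl⟩

theorem W_mono {t J : ℕ} (y : Fin t → Ω) (b : Fin J → Ω) {N N' : ℕ} (h : N ≤ N') :
    W (k := k) y b N ≤ W y b N' := by
  unfold W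
  rw [Submodule.span_le]
  rintro _ ⟨q, rfl⟩
  exact W_mem y b (fun i => (q.1 i : ℕ)) (fun i => by have := (q.1 i).2; omega) q.2

theorem W_fin {t J : ℕ} (y : Fin t → Ω) (b : Fin J → Ω) (N : ℕ) :
    finrank k (W (k := k) y b N) ≤ (N + 1) ^ t * J := by
  refine (finrank_range_le_card _).trans (le_of_eq ?_)
  rw [Fintype.card_prod, Fintype.card_fun, Fintype.card_fin, Fintype.card_fin, Fintype.card_fin]

instance {t J : ℕ} (y : Fin t → Ω) (b : Fin J → Ω) (N : ℕ) :
    FiniteDimensional k (W (k := k) y b N) :=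
  FiniteDimensional.span_of_finite _ (Set.finite_range _)

/-- all exponents at most `D` -/
def Exps {t : ℕ} (p : MvPolynomial (Fin t) k) (D : ℕ) : Prop := ∀ d ∈ p.support, ∀ i, d i ≤ D

theorem exps_exists {t : ℕ} (p : MvPolynomial (Fin t) k) : ∃ D, Exps p D := by
  refine ⟨p.support.sup fun d => Finset.univ.sup fun i => d i, fun d hd i => ?_⟩
  exact (Finset.le_sup (f := fun i => d i) (Finset.mem_univ i)).trans
    (Finset.le_sup (f := fun d : Fin t →₀ ℕ => Finset.univ.sup fun i => d i) hd)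

theorem mul_W {t J : ℕ} (y : Fin t → Ω) (b : Fin J → Ω) {D N : ℕ}
    {p : MvPolynomial (Fin t) k} (hp : Exps p D) (e : Fin t → ℕ) (he : ∀ i, e i ≤ N)
    (l : Fin J) :
    (∏ i, y i ^ e i) * (MvPolynomial.aeval y p * b l) ∈ W (k := k) y b (N + D) := by
  rw [MvPolynomial.aeval_def, MvPolynomial.eval₂_eq', Finset.sum_mul, Finset.mul_sum]
  refine Submodule.sum_mem _ fun d hd => ?_
  have h1 := Submodule.smul_mem (W (k := k) y b (N + D)) (p.coeff d)
    (W_mem y b (fun i => e i + d i) (fun i => Nat.add_le_add (he i) (hp d hd i)) l)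
  convert h1 using 1
  rw [Algebra.smul_def]
  simp only [pow_add, Finset.prod_mul_distrib]
  ring

/-- the upper bound -/
theorem upper {r t J : ℕ} (z : Fin r → Ω) (y : Fin t → Ω) (b : Fin J → Ω)
    (h1 : ∃ p : Fin J → MvPolynomial (Fin t) k, (1 : Ω) = ∑ l, MvPolynomial.aeval y (p l) * b l)
    (h2 : ∀ i l, ∃ p : Fin J → MvPolynomial (Fin t) k,
      z i * b l = ∑ l', MvPolynomial.aeval y (p l') * b l') :
    ∃ C : ℕ, ∀ n : ℕ, finrank k (gen k z ^ n : Submodule k Ω) ≤ C * (n + 1) ^ t := by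
  obtain ⟨p0, hp0⟩ := h1
  choose p hp using h2
  choose D0 hD0 using fun l => exps_exists (p0 l)
  choose D hD using fun i l l' => exps_exists (p i l l')
  obtain ⟨E, hE⟩ : ∃ E : ℕ, ∀ l, D0 l ≤ E :=
    ⟨Finset.univ.sup D0, fun l => Finset.le_sup (Finset.mem_univ l)⟩
  obtain ⟨F, hF⟩ : ∃ F : ℕ, ∀ i l l', D i l l' ≤ F :=
    ⟨Finset.univ.sup fun q : Fin r × Fin J × Fin J => D q.1 q.2.1 q.2.2, fun i l l' =>
      Finset.le_sup (f := fun q : Fin r × Fin J × Fin J => D q.1 q.2.1 q.2.2)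
        (Finset.mem_univ (i, l, l'))⟩
  have base : (1 : Ω) ∈ W (k := k) y b E := by
    rw [hp0]
    refine Submodule.sum_mem _ fun l _ => ?_
    have h3 := mul_W (k := k) y b (N := 0) (hD0 l) (fun _ => 0) (fun _ => le_rfl) l
    simp only [pow_zero, Finset.prod_const_one, one_mul, Nat.zero_add] at h3
    exact W_mono y b (hE l) h3
  have step : ∀ N, gen k z * W y b N ≤ W (k := k) y b (N + F) := by
    intro N
    unfold gen
    conv_lhs => rw [W]
    rw [Submodule.span_mul_span, Submodule.span_le]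
    rintro _ ⟨x, hx, _, ⟨q, rfl⟩, rfl⟩
    rcases hx with rfl | ⟨i, rfl⟩
    · change (1 : Ω) * _ ∈ _
      rw [one_mul]
      exact W_mem y b _ (fun i => by have := (q.1 i).2; omega) q.2
    · change z i * ((∏ i, y i ^ (q.1 i : ℕ)) * b q.2) ∈ _
      have e : z i * ((∏ i, y i ^ (q.1 i : ℕ)) * b q.2) =
          ∑ l', (∏ i, y i ^ (q.1 i : ℕ)) * (MvPolynomial.aeval y (p i q.2 l') * b l') := by
        rw [← Finset.mul_sum, ← hp i q.2]
        ring
      rw [e]
      refine Submodule.sum_mem _ fun l' _ => ?_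
      exact W_mono y b (Nat.add_le_add_left (hF i q.2 l') N)
        (mul_W y b (hD i q.2 l') _ (fun i => Nat.le_of_lt_succ (q.1 i).2) l')
  have main : ∀ n, gen k z ^ n ≤ W (k := k) y b (E + F * n) := by
    intro n
    induction n with
    | zero =>
      rw [pow_zero, Submodule.one_le]
      exact W_mono y b (by omega) base
    | succ n ih =>
      rw [pow_succ']
      refine (mul_le_mul' le_rfl ih).trans ((step _).trans (W_mono y b ?_))
      rw [Nat.mul_succ]
      omega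
  refine ⟨(E + F + 1) ^ t * J, fun n => ?_⟩
  refine (Submodule.finrank_mono (main n)).trans ((W_fin y b _).trans ?_)
  have h4 : E + F * n + 1 ≤ (E + F + 1) * (n + 1) := by nlinarith
  calc (E + F * n + 1) ^ t * J ≤ ((E + F + 1) * (n + 1)) ^ t * J :=
        Nat.mul_le_mul_right _ (Nat.pow_le_pow_left h4 t)
    _ = (E + F + 1) ^ t * J * (n + 1) ^ t := by rw [mul_pow]; ring

end Pool.Agent.T6.H39.AG
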